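import Pool.Agent.HQM.Merge

set_option autoImplicit false

namespace Pool.Agent.HQM

open Finset

/-- the number of pairs of colours on the same side -/
def sameSide (q : ℕ) : ℕ :=
  Fintype.card {p : Fin q × Fin q // ((p.2 : ℕ) < q / 2 ↔ (p.1 : ℕ) < q / 2)}

theorem sameSide_le {q : ℕ} (hq : 2 ≤ q) : 9 * sameSide q ≤ 5 * q ^ 2 := by
  set H : Finset (Fin q) := univ.filter fun x => (x : ℕ) < q / 2 with hH
  set K : Finset (Fin q) := univ.filter fun x => ¬ (x : ℕ) < q / 2 with hK
  have hHK : H.card + K.card = q := by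
    have h := Finset.card_filter_add_card_filter_not (s := (univ : Finset (Fin q)))
      (fun x => (x : ℕ) < q / 2)
    rw [Finset.card_univ, Fintype.card_fin] at h
    exact h
  have hHc : H.card = q / 2 := by
    have h := Fin.card_filter_val_lt (n := q) (m := q / 2)
    rw [hH, h]
    omega
  have hle : sameSide q ≤ H.card * H.card + K.card * K.card := by
    unfold sameSide
    rw [Fintype.card_subtype, ← Finset.card_product, ← Finset.card_product]
    refine (Finset.card_le_card ?_).trans (Finset.card_union_le _ _)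
    intro p hp
    simp only [mem_filter, mem_univ, true_and] at hp
    simp only [mem_union, mem_product, hH, hK, mem_filter, mem_univ, true_and]
    tauto
  obtain ⟨m, hm | hm⟩ := Nat.even_or_odd' q
  · have h1 : H.card = m := by omega
    have h2 : K.card = m := by omega
    rw [h1, h2] at hle
    calc 9 * sameSide q ≤ 9 * (m * m + m * m) := by omega
      _ ≤ 5 * (2 * m) ^ 2 := by nlinarith
      _ = 5 * q ^ 2 := by rw [hm]
  · have h1 : H.card = m := by omega
    have h2 : K.card = m + 1 := by omega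
    rw [h1, h2] at hle
    have h3 : 1 ≤ m := by omega
    calc 9 * sameSide q ≤ 9 * (m * m + (m + 1) * (m + 1)) := by omega
      _ ≤ 5 * (2 * m + 1) ^ 2 := by nlinarith
      _ = 5 * q ^ 2 := by rw [hm]

theorem card_sym_le {α : Type*} [Fintype α] [DecidableEq α] (σ : Equiv.Perm α) (A : Finset α)
    (hA : Disjoint A (A.image σ)) (q : ℕ) :
    Fintype.card {Y : α → Fin q // ∀ v ∈ A, ((Y (σ v) : ℕ) < q / 2 ↔ (Y v : ℕ) < q / 2)} ≤
      sameSide q ^ A.card * q ^ (Fintype.card α - 2 * A.card) := by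
  have hinj : Function.Injective
      (fun Y : {Y : α → Fin q // ∀ v ∈ A, ((Y (σ v) : ℕ) < q / 2 ↔ (Y v : ℕ) < q / 2)} =>
        ((fun v : A => (⟨(Y.1 v, Y.1 (σ v)), Y.2 v v.2⟩ :
            {p : Fin q × Fin q // ((p.2 : ℕ) < q / 2 ↔ (p.1 : ℕ) < q / 2)})),
          (fun i : {i // i ∉ A ∪ A.image σ} => Y.1 i))) := by
    intro Y Z h
    simp only [Prod.mk.injEq] at h
    obtain ⟨h1, h2⟩ := h
    apply Subtype.ext
    funext i
    by_cases hi : i ∈ A ∪ A.image σ
    · rw [mem_union] at hi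
      rcases hi with hi | hi
      · have := congrFun h1 ⟨i, hi⟩
        simp only [Subtype.mk.injEq, Prod.mk.injEq] at this
        exact this.1
      · rw [mem_image] at hi
        obtain ⟨v, hv, rfl⟩ := hi
        have := congrFun h1 ⟨v, hv⟩
        simp only [Subtype.mk.injEq, Prod.mk.injEq] at this
        exact this.2
    · exact congrFun h2 ⟨i, hi⟩
  refine (Fintype.card_le_of_injective _ hinj).trans (le_of_eq ?_)
  rw [Fintype.card_prod, Fintype.card_fun, Fintype.card_fun, Fintype.card_coe, Fintype.card_fin]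
  have hc : Fintype.card {i // i ∉ A ∪ A.image σ} = Fintype.card α - 2 * A.card := by
    rw [Fintype.card_subtype_compl, Fintype.card_coe, Finset.card_union_of_disjoint hA,
      Finset.card_image_of_injective _ σ.injective]
    congr 1
    ring
  rw [hc]
  rfl

theorem sym_real {n q : ℕ} (hq : 2 ≤ q) {σ : Equiv.Perm (Cube n)} (hσ : σ ∈ auts n)
    (h1 : σ ≠ 1) :
    (Fintype.card {Y : Cube n → Fin q //
        ∀ v, ((Y (σ v) : ℕ) < q / 2 ↔ (Y v : ℕ) < q / 2)} : ℝ) ≤
      (5 / 9 : ℝ) ^ (2 ^ n / 6) * (q : ℝ) ^ (2 ^ n) := by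
  obtain ⟨A, hA, hcard⟩ := exists_indep σ
  have hm := moved hσ h1
  have h6 : 2 ^ n / 6 ≤ A.card := by omega
  have hle2 : 2 * A.card ≤ 2 ^ n := by
    have h := Finset.card_le_univ (A ∪ A.image σ)
    rw [Finset.card_union_of_disjoint hA, Finset.card_image_of_injective _ σ.injective] at h
    simp only [Fintype.card_fun, Fintype.card_bool, Fintype.card_fin] at h
    omega
  have hstep : Fintype.card {Y : Cube n → Fin q //
        ∀ v, ((Y (σ v) : ℕ) < q / 2 ↔ (Y v : ℕ) < q / 2)} ≤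
      Fintype.card {Y : Cube n → Fin q //
        ∀ v ∈ A, ((Y (σ v) : ℕ) < q / 2 ↔ (Y v : ℕ) < q / 2)} :=
    Fintype.card_subtype_mono _ _ (fun Y hY v _ => hY v)
  have hb := hstep.trans (card_sym_le σ A hA q)
  have hcc : Fintype.card (Cube n) = 2 ^ n := by simp
  rw [hcc] at hb
  have hbR : (Fintype.card {Y : Cube n → Fin q //
        ∀ v, ((Y (σ v) : ℕ) < q / 2 ↔ (Y v : ℕ) < q / 2)} : ℝ) ≤
      (sameSide q : ℝ) ^ A.card * (q : ℝ) ^ (2 ^ n - 2 * A.card) := by
    exact_mod_cast hb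
  have hs : (sameSide q : ℝ) ≤ (5 / 9 : ℝ) * (q : ℝ) ^ 2 := by
    have := sameSide_le hq
    have h' : (9 : ℝ) * (sameSide q : ℝ) ≤ 5 * (q : ℝ) ^ 2 := by exact_mod_cast this
    linarith
  calc _ ≤ (sameSide q : ℝ) ^ A.card * (q : ℝ) ^ (2 ^ n - 2 * A.card) := hbR
    _ ≤ ((5 / 9 : ℝ) * (q : ℝ) ^ 2) ^ A.card * (q : ℝ) ^ (2 ^ n - 2 * A.card) := by
        gcongr
    _ = (5 / 9 : ℝ) ^ A.card * (q : ℝ) ^ (2 ^ n) := by
        rw [mul_pow, ← pow_mul, mul_assoc, ← pow_add]
        congr 2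
        omega
    _ ≤ (5 / 9 : ℝ) ^ (2 ^ n / 6) * (q : ℝ) ^ (2 ^ n) := by
        apply mul_le_mul_of_nonneg_right _ (by positivity)
        exact pow_le_pow_of_le_one (by norm_num) (by norm_num) h6

end Pool.Agent.HQM
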