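import Mathlib

set_option autoImplicit false

namespace Pool.Agent.HQM

/-- The vertices of the cube graph: the 0/1 sequences of length `n`. -/
abbrev Cube (n : ℕ) : Type := Fin n → Bool

/-- The cube graph `Q_n`: two vertices are adjacent when they differ in exactly one coordinate. -/
def Q (n : ℕ) : SimpleGraph (Cube n) where
  Adj u v := hammingDist u v = 1
  symm := ⟨fun u v h => by rw [hammingDist_comm]; exact h⟩
  loopless := ⟨fun u h => by simp at h⟩

/-- The ball of radius `r` about `v`: the vertices that are joined to `v` by a path of at most `r`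
edges of `Q_n`. -/
def ball {n : ℕ} (r : ℕ) (v : Cube n) : Set (Cube n) :=
  {w | ∃ p : (Q n).Walk v w, p.length ≤ r}

/-- The coloured `r`-ball of `χ` at `u` is isomorphic to the coloured `r`-ball of `μ` at `w`: some
isomorphism between the induced subgraphs carries the colours of `χ` to the colours of `μ`. -/
def BallIso {n : ℕ} (r : ℕ) (χ μ : Cube n → ℕ) (u w : Cube n) : Prop :=
  ∃ φ : (Q n).induce (ball r u) ≃g (Q n).induce (ball r w),
    ∀ x : ball r u, μ (φ x) = χ x

/-- `χ` and `μ` are `r`-locally equivalent: a bijection of the vertices matches the isomorphism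
types of the coloured `r`-balls. -/
def LocallyEquivalent {n : ℕ} (r : ℕ) (χ μ : Cube n → ℕ) : Prop :=
  ∃ f : Cube n ≃ Cube n, ∀ v, BallIso r χ μ v (f v)

/-- `χ` and `μ` are equivalent: `χ = μ ∘ g` for an automorphism `g` of `Q_n`. -/
def Equivalent {n : ℕ} (χ μ : Cube n → ℕ) : Prop :=
  ∃ g : Q n ≃g Q n, ∀ v, χ v = μ (g v)

/-- `χ` is `r`-distinguishable: every colouring that is `r`-locally equivalent to `χ` is
equivalent to `χ`. -/
def Distinguishable {n : ℕ} (r : ℕ) (χ : Cube n → ℕ) : Prop :=
  ∀ μ : Cube n → ℕ, LocallyEquivalent r χ μ → Equivalent μ χ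

/-- The probability that a random `q`-colouring of `Q_n` (independent uniform colours in
`{0, ..., q - 1}`) is `r`-distinguishable. -/
noncomputable def prob (n r q : ℕ) : ℝ :=
  (Nat.card {χ : Cube n → Fin q // Distinguishable r (fun v => (χ v : ℕ))} : ℝ) /
    (Nat.card (Cube n → Fin q) : ℝ)

end Pool.Agent.HQM
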