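import Pool.Agent.HQM.Count

set_option autoImplicit false

namespace Pool.Agent.HQM

open Finset Filter Topology

open scoped Classical in
/-- the number of colourings with a property -/
noncomputable def num (n q : ℕ) (P : (Cube n → ℕ) → Prop) : ℕ :=
  (univ.filter fun χ : Cube n → Fin q => P (fun v => (χ v : ℕ))).card

theorem num_add (n q : ℕ) (P : (Cube n → ℕ) → Prop) :
    num n q P + num n q (fun χ => ¬ P χ) = q ^ (2 ^ n) := by
  classical
  unfold num
  rw [Finset.card_filter_add_card_filter_not]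
  simp

theorem prob_eq (n r q : ℕ) : prob n r q = (num n q (Distinguishable r) : ℝ) / (q : ℝ) ^ (2 ^ n) := by
  classical
  unfold prob num
  rw [Nat.card_eq_fintype_card, Fintype.card_subtype, Nat.card_eq_fintype_card]
  simp

theorem one_sub_prob {n r q : ℕ} (hq : 1 ≤ q) :
    1 - prob n r q = (num n q (fun χ => ¬ Distinguishable r χ) : ℝ) / (q : ℝ) ^ (2 ^ n) := by
  have h := num_add n q (Distinguishable r)
  have hR : (num n q (Distinguishable r) : ℝ) + (num n q (fun χ => ¬ Distinguishable r χ) : ℝ) =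
      (q : ℝ) ^ (2 ^ n) := by exact_mod_cast h
  have hq0 : (0 : ℝ) < (q : ℝ) ^ (2 ^ n) := by
    have : (0 : ℝ) < q := by exact_mod_cast hq
    positivity
  rw [prob_eq, eq_div_iff hq0.ne', sub_mul, div_mul_cancel₀ _ hq0.ne']
  linarith

/-- merging the colours of a uniform colouring gives a uniform colouring -/
theorem num_merge {n q k : ℕ} (hq : 2 ≤ q) (s : ℕ) (P : (Cube n → ℕ) → Prop) :
    num n (k * q) (fun χ => P (fun v => mg q s (χ v))) = num n q P * k ^ (2 ^ n) := by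
  classical
  let e : Fin (k * q) ≃ Fin q × Fin k := Equiv.ofBijective _ (split_bij hq s)
  let E : (Cube n → Fin (k * q)) ≃ (Cube n → Fin q) × (Cube n → Fin k) :=
    (Equiv.arrowCongr (Equiv.refl _) e).trans (Equiv.arrowProdEquivProdArrow _ _ _)
  have h1 : num n (k * q) (fun χ => P (fun v => mg q s (χ v))) =
      Fintype.card {χ : Cube n → Fin (k * q) // P (fun v => mg q s (χ v))} := by
    unfold num
    rw [Fintype.card_subtype]
  have h2 : num n q P = Fintype.card {Y : Cube n → Fin q // P (fun v => (Y v : ℕ))} := by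
    unfold num
    rw [Fintype.card_subtype]
  rw [h1, h2]
  have e1 : {χ : Cube n → Fin (k * q) // P (fun v => mg q s (χ v))} ≃
      {p : (Cube n → Fin q) × (Cube n → Fin k) // P (fun v => (p.1 v : ℕ))} := by
    refine Equiv.subtypeEquiv E ?_
    intro χ
    exact Iff.rfl
  have e2 : {p : (Cube n → Fin q) × (Cube n → Fin k) // P (fun v => (p.1 v : ℕ))} ≃
      {Y : Cube n → Fin q // P (fun v => (Y v : ℕ))} × (Cube n → Fin k) :=
    Equiv.prodSubtypeFstEquivSubtypeProd (p := fun Y : Cube n → Fin q => P (fun v => (Y v : ℕ)))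
  rw [Fintype.card_congr (e1.trans e2), Fintype.card_prod]
  simp

theorem num_sym {n q : ℕ} (hq : 2 ≤ q) :
    (num n q (SymHalf q) : ℝ) ≤
      2 ^ (n * (n + 1)) * (5 / 9 : ℝ) ^ (2 ^ n / 6) * (q : ℝ) ^ (2 ^ n) := by
  classical
  set B : ℝ := (5 / 9 : ℝ) ^ (2 ^ n / 6) * (q : ℝ) ^ (2 ^ n) with hB
  have hB0 : 0 ≤ B := by positivity
  have hsub : (univ.filter fun χ : Cube n → Fin q => SymHalf q (fun v => (χ v : ℕ))) ⊆
      ((auts n).filter fun σ => σ ≠ 1).biUnion fun σ =>
        univ.filter fun Y : Cube n → Fin q =>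
          ∀ v, ((Y (σ v) : ℕ) < q / 2 ↔ (Y v : ℕ) < q / 2) := by
    intro χ hχ
    simp only [mem_filter, mem_univ, true_and] at hχ
    obtain ⟨σ, hσ, h1, h2⟩ := hχ
    rw [mem_biUnion]
    exact ⟨σ, mem_filter.mpr ⟨hσ, h1⟩, by simpa using h2⟩
  have hcard : num n q (SymHalf q) ≤ ∑ σ ∈ (auts n).filter fun σ => σ ≠ 1,
      (univ.filter fun Y : Cube n → Fin q =>
          ∀ v, ((Y (σ v) : ℕ) < q / 2 ↔ (Y v : ℕ) < q / 2)).card :=
    (Finset.card_le_card hsub).trans Finset.card_biUnion_le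
  have hterm : ∀ σ ∈ (auts n).filter fun σ => σ ≠ 1,
      ((univ.filter fun Y : Cube n → Fin q =>
          ∀ v, ((Y (σ v) : ℕ) < q / 2 ↔ (Y v : ℕ) < q / 2)).card : ℝ) ≤ B := by
    intro σ hσ
    rw [mem_filter] at hσ
    have := sym_real hq hσ.1 hσ.2
    rw [Fintype.card_subtype] at this
    exact this
  have hR : (num n q (SymHalf q) : ℝ) ≤ ∑ σ ∈ (auts n).filter fun σ => σ ≠ 1, B := by
    refine le_trans (Nat.cast_le.mpr hcard) ?_
    rw [Nat.cast_sum]
    exact Finset.sum_le_sum hterm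
  rw [Finset.sum_const, nsmul_eq_mul] at hR
  have hc : (((auts n).filter fun σ => σ ≠ 1).card : ℝ) ≤ 2 ^ (n * (n + 1)) := by
    have := (Finset.card_filter_le (auts n) (fun σ => σ ≠ 1)).trans (card_auts_le n)
    exact_mod_cast this
  calc (num n q (SymHalf q) : ℝ) ≤ _ := hR
    _ ≤ 2 ^ (n * (n + 1)) * B := mul_le_mul_of_nonneg_right hc hB0
    _ = _ := by rw [hB]; ring

theorem num_bad_le {n r q k T : ℕ} (hq : 4 ≤ q) (hk : k ≤ (q / 2) ^ T) :
    num n (k * q) (fun χ => ¬ Distinguishable r χ) ≤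
      (T + 1) * (num n q (fun χ => ¬ Distinguishable r χ) * k ^ (2 ^ n)) +
        num n q (SymHalf q) * k ^ (2 ^ n) := by
  classical
  have hsub : (univ.filter fun χ : Cube n → Fin (k * q) =>
        ¬ Distinguishable r (fun v => (χ v : ℕ))) ⊆
      ((range (T + 1)).biUnion fun s => univ.filter fun χ : Cube n → Fin (k * q) =>
        ¬ Distinguishable r (fun v => mg q s (χ v))) ∪
      (univ.filter fun χ : Cube n → Fin (k * q) => SymHalf q (fun v => mg q 0 (χ v))) := by
    intro χ hχ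
    simp only [mem_filter, mem_univ, true_and] at hχ
    by_contra hcon
    simp only [mem_union, mem_biUnion, mem_range, mem_filter, mem_univ, true_and, not_or,
      not_exists, not_and, not_not] at hcon
    obtain ⟨hc1, hc2⟩ := hcon
    have hc3 : ∀ s ≤ T, Distinguishable r (fun v => mg q s (χ v)) := fun s hs =>
      hc1 s (Nat.lt_succ_of_le hs)
    exact hχ (dist_of_merges (T := T) hq hk (fun v => (χ v).2) hc3 hc2)
  have h := (Finset.card_le_card hsub).trans (Finset.card_union_le _ _)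
  have h2 : ((range (T + 1)).biUnion fun s => univ.filter fun χ : Cube n → Fin (k * q) =>
        ¬ Distinguishable r (fun v => mg q s (χ v))).card ≤
      (T + 1) * (num n q (fun χ => ¬ Distinguishable r χ) * k ^ (2 ^ n)) := by
    refine Finset.card_biUnion_le.trans ?_
    have : ∀ s ∈ range (T + 1), (univ.filter fun χ : Cube n → Fin (k * q) =>
        ¬ Distinguishable r (fun v => mg q s (χ v))).card =
        num n q (fun χ => ¬ Distinguishable r χ) * k ^ (2 ^ n) := by
      intro s _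
      have h := num_merge (n := n) (q := q) (k := k) (by omega) s
        (fun χ => ¬ Distinguishable r χ)
      rw [← h]
      unfold num
      congr
    rw [Finset.sum_congr rfl this]
    simp
  have h3 : (univ.filter fun χ : Cube n → Fin (k * q) =>
      SymHalf q (fun v => mg q 0 (χ v))).card = num n q (SymHalf q) * k ^ (2 ^ n) :=
    num_merge (q := q) (k := k) (by omega) 0 (SymHalf q)
  rw [h3] at h
  refine le_trans (le_of_eq ?_) (h.trans (Nat.add_le_add_right h2 _))
  unfold num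
  congr

/-- the error term -/
noncomputable def eps (n : ℕ) : ℝ := 2 ^ (n * (n + 1)) * (5 / 9 : ℝ) ^ (2 ^ n / 6)

theorem main_ineq {n r q k T : ℕ} (hq : 4 ≤ q) (hk1 : 1 ≤ k) (hk : k ≤ (q / 2) ^ T) :
    1 - prob n r (k * q) ≤ (T + 1) * (1 - prob n r q) + eps n := by
  have hq1 : 1 ≤ q := by omega
  have hkq : 1 ≤ k * q := Nat.mul_pos (by omega) (by omega)
  rw [one_sub_prob hkq, one_sub_prob hq1]
  have hb := num_bad_le (n := n) (r := r) (T := T) hq hk
  have hs := num_sym (n := n) (q := q) (by omega)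
  have hbR : (num n (k * q) (fun χ => ¬ Distinguishable r χ) : ℝ) ≤
      (T + 1) * ((num n q (fun χ => ¬ Distinguishable r χ) : ℝ) * (k : ℝ) ^ (2 ^ n)) +
        (num n q (SymHalf q) : ℝ) * (k : ℝ) ^ (2 ^ n) := by exact_mod_cast hb
  have hk0 : (0 : ℝ) < (k : ℝ) ^ (2 ^ n) := by
    have : (0 : ℝ) < k := by exact_mod_cast hk1
    positivity
  have hq0 : (0 : ℝ) < (q : ℝ) ^ (2 ^ n) := by
    have : (0 : ℝ) < q := by exact_mod_cast hq1
    positivity
  have hcast : ((k * q : ℕ) : ℝ) ^ (2 ^ n) = (k : ℝ) ^ (2 ^ n) * (q : ℝ) ^ (2 ^ n) := by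
    push_cast
    rw [mul_pow]
  rw [hcast, div_le_iff₀ (by positivity)]
  have hexp : ((T + 1) * ((num n q (fun χ => ¬ Distinguishable r χ) : ℝ) / (q : ℝ) ^ (2 ^ n)) +
      eps n) * ((k : ℝ) ^ (2 ^ n) * (q : ℝ) ^ (2 ^ n)) =
      (T + 1) * ((num n q (fun χ => ¬ Distinguishable r χ) : ℝ) * (k : ℝ) ^ (2 ^ n)) +
        (eps n * (q : ℝ) ^ (2 ^ n)) * (k : ℝ) ^ (2 ^ n) := by
    field_simp
  rw [hexp]
  refine hbR.trans ?_
  have : (num n q (SymHalf q) : ℝ) * (k : ℝ) ^ (2 ^ n) ≤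
      (eps n * (q : ℝ) ^ (2 ^ n)) * (k : ℝ) ^ (2 ^ n) :=
    mul_le_mul_of_nonneg_right hs hk0.le
  linarith

theorem pow_big : ∀ n : ℕ, 11 ≤ n → 12 * (n * (n + 1) + n + 1) ≤ 2 ^ n := by
  intro n hn
  induction n, hn using Nat.le_induction with
  | base => norm_num
  | succ n hn ih =>
      rw [pow_succ]
      nlinarith

theorem eps_le {n : ℕ} (hn : 11 ≤ n) : eps n ≤ (1 / 2 : ℝ) ^ n := by
  have h := pow_big n hn
  set m := n * (n + 1) + n with hm
  have h2 : 2 * m ≤ 2 ^ n / 6 := by omega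
  unfold eps
  have h3 : (5 / 9 : ℝ) ^ (2 ^ n / 6) ≤ (1 / 2 : ℝ) ^ m := by
    calc (5 / 9 : ℝ) ^ (2 ^ n / 6) ≤ (5 / 9 : ℝ) ^ (2 * m) :=
          pow_le_pow_of_le_one (by norm_num) (by norm_num) h2
      _ = ((5 / 9 : ℝ) ^ 2) ^ m := by rw [pow_mul]
      _ ≤ (1 / 2 : ℝ) ^ m := by
          apply pow_le_pow_left₀ (by norm_num)
          norm_num
  calc (2 : ℝ) ^ (n * (n + 1)) * (5 / 9 : ℝ) ^ (2 ^ n / 6)
      ≤ (2 : ℝ) ^ (n * (n + 1)) * (1 / 2 : ℝ) ^ m := by
        apply mul_le_mul_of_nonneg_left h3 (by positivity)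
    _ = (1 / 2 : ℝ) ^ n := by
        rw [hm, pow_add, ← mul_assoc, ← mul_pow]
        norm_num

theorem eps_tendsto : Tendsto eps atTop (𝓝 0) := by
  refine squeeze_zero' (Eventually.of_forall fun n => by unfold eps; positivity)
    (eventually_atTop.mpr ⟨11, fun n hn => eps_le hn⟩) ?_
  exact tendsto_pow_atTop_nhds_zero_of_lt_one (by norm_num) (by norm_num)

theorem prob_le_one (n r q : ℕ) : prob n r q ≤ 1 := by
  rw [prob_eq]
  rcases Nat.eq_zero_or_pos q with h | h
  · subst h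
    simp
  · have h1 := one_sub_prob (n := n) (r := r) (q := q) h
    rw [prob_eq] at h1
    have : (0 : ℝ) ≤ (num n q (fun χ => ¬ Distinguishable r χ) : ℝ) / (q : ℝ) ^ (2 ^ n) := by
      positivity
    linarith

theorem main_tendsto (T : ℕ) (r q k : ℕ → ℕ)
    (h : ∀ᶠ n in atTop, 4 ≤ q n ∧ 1 ≤ k n ∧ k n ≤ (q n / 2) ^ T)
    (hp : Tendsto (fun n => prob n (r n) (q n)) atTop (𝓝 1)) :
    Tendsto (fun n => prob n (r n) (k n * q n)) atTop (𝓝 1) := by
  have h1 : Tendsto (fun n => 1 - prob n (r n) (k n * q n)) atTop (𝓝 0) := by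
    refine squeeze_zero' (Eventually.of_forall fun n => sub_nonneg.mpr (prob_le_one _ _ _))
      (h.mono fun n hn => main_ineq (T := T) hn.1 hn.2.1 hn.2.2) ?_
    have h2 : Tendsto (fun n => (T + 1 : ℝ) * (1 - prob n (r n) (q n)) + eps n) atTop
        (𝓝 ((T + 1) * (1 - 1) + 0)) :=
      ((hp.const_sub 1).const_mul _).add eps_tendsto
    simpa using h2
  have h3 := h1.const_sub 1
  simpa using h3

end Pool.Agent.HQM
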