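import Pool.Agent.HQM.Defs

set_option autoImplicit false

namespace Pool.Agent.HQM

open Finset

/-- flip one coordinate -/
def flip {n : ℕ} (i : Fin n) (u : Cube n) : Cube n := Function.update u i (!u i)

/-- the zero vertex -/
def zero (n : ℕ) : Cube n := fun _ => false

theorem hd_split {n : ℕ} (i : Fin n) (w v : Cube n) :
    hammingDist w v = (if w i ≠ v i then 1 else 0) +
      ∑ j ∈ univ.erase i, (if w j ≠ v j then 1 else 0) := by
  unfold hammingDist
  rw [Finset.card_filter, ← Finset.add_sum_erase _ _ (mem_univ i)]

theorem hd_flip {n : ℕ} (i : Fin n) (u v : Cube n) :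
    hammingDist (flip i u) v + (if u i = v i then 0 else 1) =
      hammingDist u v + (if u i = v i then 1 else 0) := by
  rw [hd_split i (flip i u) v, hd_split i u v]
  have h : ∑ j ∈ univ.erase i, (if flip i u j ≠ v j then 1 else 0) =
      ∑ j ∈ univ.erase i, (if u j ≠ v j then 1 else 0) := by
    refine Finset.sum_congr rfl fun j hj => ?_
    have hji : j ≠ i := (Finset.mem_erase.mp hj).1
    simp [flip, Function.update_of_ne hji]
  rw [h]
  have h2 : flip i u i = !u i := by simp [flip]
  rw [h2]
  cases u i <;> cases v i <;> simp <;> omega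

theorem hd_flip_self {n : ℕ} (i : Fin n) (u : Cube n) : hammingDist u (flip i u) = 1 := by
  have h := hd_flip i u u
  simp at h
  rw [hammingDist_comm]
  exact h

/-- the automorphisms of the cube as permutations -/
def auts (n : ℕ) : Finset (Equiv.Perm (Cube n)) :=
  univ.filter fun σ => ∀ u v, hammingDist (σ u) (σ v) = 1 ↔ hammingDist u v = 1

theorem mem_auts {n : ℕ} {σ : Equiv.Perm (Cube n)} :
    σ ∈ auts n ↔ ∀ u v, hammingDist (σ u) (σ v) = 1 ↔ hammingDist u v = 1 := by
  simp [auts]

theorem inv_mem {n : ℕ} {σ : Equiv.Perm (Cube n)} (h : σ ∈ auts n) : σ.symm ∈ auts n := by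
  rw [mem_auts] at h ⊢
  intro u v
  have := h (σ.symm u) (σ.symm v)
  simp at this
  exact this.symm

theorem isom_le {n : ℕ} {σ : Equiv.Perm (Cube n)} (hσ : σ ∈ auts n) :
    ∀ d : ℕ, ∀ u v, hammingDist u v = d → hammingDist (σ u) (σ v) ≤ d := by
  intro d
  induction d with
  | zero =>
      intro u v h
      rw [hammingDist_eq_zero] at h
      subst h
      simp
  | succ d ih =>
      intro u v h
      have hne : u ≠ v := by
        intro huv
        subst huv
        simp at h
      obtain ⟨i, hi⟩ := Function.ne_iff.mp hne
      have h1 := hd_flip i u v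
      simp [hi] at h1
      have h2 : hammingDist (flip i u) v = d := by omega
      have h3 := ih _ _ h2
      have h4 : hammingDist (σ u) (σ (flip i u)) = 1 :=
        (mem_auts.mp hσ _ _).mpr (hd_flip_self i u)
      have h5 := hammingDist_triangle (σ u) (σ (flip i u)) (σ v)
      omega

theorem isom {n : ℕ} {σ : Equiv.Perm (Cube n)} (hσ : σ ∈ auts n) (u v : Cube n) :
    hammingDist (σ u) (σ v) = hammingDist u v := by
  apply le_antisymm
  · exact isom_le hσ _ u v rfl
  · have := isom_le (inv_mem hσ) _ (σ u) (σ v) rfl
    simpa using this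

theorem eq_of_dists {n : ℕ} (u v : Cube n)
    (h0 : hammingDist u (zero n) = hammingDist v (zero n))
    (h1 : ∀ i, hammingDist u (flip i (zero n)) = hammingDist v (flip i (zero n))) : u = v := by
  funext i
  have a := hd_flip i (zero n) u
  have b := hd_flip i (zero n) v
  have c := h1 i
  rw [hammingDist_comm u, hammingDist_comm v] at c
  rw [hammingDist_comm u, hammingDist_comm v] at h0
  rw [c, h0] at a
  have e : (if zero n i = u i then (0 : ℕ) else 1) + (if zero n i = v i then 1 else 0) =
      (if zero n i = v i then 0 else 1) + (if zero n i = u i then 1 else 0) := by omega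
  cases hz : zero n i <;> cases hu : u i <;> cases hv : v i <;> simp_all

theorem auts_ext {n : ℕ} {σ τ : Equiv.Perm (Cube n)} (hσ : σ ∈ auts n) (hτ : τ ∈ auts n)
    (h0 : σ (zero n) = τ (zero n))
    (h1 : ∀ i, σ (flip i (zero n)) = τ (flip i (zero n))) : σ = τ := by
  apply Equiv.ext
  intro v
  have key : σ.symm (τ v) = v := by
    apply eq_of_dists
    · rw [← isom hσ (σ.symm (τ v)) (zero n), ← isom hτ v (zero n), h0]
      simp
    · intro i
      rw [← isom hσ (σ.symm (τ v)) (flip i (zero n)), ← isom hτ v (flip i (zero n)), h1 i]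
      simp
  have := congrArg σ key
  simpa using this.symm

theorem card_auts_le (n : ℕ) : (auts n).card ≤ 2 ^ (n * (n + 1)) := by
  have h := Finset.card_le_card_of_injOn
    (s := auts n) (t := (univ : Finset (Cube n × (Fin n → Cube n))))
    (fun σ => (σ (zero n), fun i => σ (flip i (zero n)))) (fun _ _ => by simp)
    (by
      intro σ hσ τ hτ h
      simp only [Prod.mk.injEq] at h
      exact auts_ext hσ hτ h.1 (fun i => congrFun h.2 i))
  refine h.trans (le_of_eq ?_)
  simp only [card_univ, Fintype.card_prod, Fintype.card_fun, Fintype.card_bool, Fintype.card_fin]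
  rw [← pow_mul, ← pow_add]
  congr 1
  ring

theorem moved {n : ℕ} {σ : Equiv.Perm (Cube n)} (hσ : σ ∈ auts n) (h1 : σ ≠ 1) :
    2 ^ n ≤ 2 * (univ.filter fun u => σ u ≠ u).card := by
  obtain ⟨v, hv⟩ : ∃ v, σ v ≠ v := by
    by_contra hcon
    push Not at hcon
    exact h1 (Equiv.ext hcon)
  obtain ⟨i, hi⟩ := Function.ne_iff.mp hv
  have hmap : (univ.filter fun u => σ u = u).card ≤ (univ.filter fun u => σ u ≠ u).card := by
    refine Finset.card_le_card_of_injOn (flip i) ?_ ?_
    · intro u hu
      simp only [coe_filter, mem_univ, true_and, Set.mem_ofPred_eq] at hu ⊢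
      intro hf
      have e1 : hammingDist u v = hammingDist u (σ v) := by
        rw [← isom hσ u v, hu]
      have e2 : hammingDist (flip i u) v = hammingDist (flip i u) (σ v) := by
        rw [← isom hσ (flip i u) v, hf]
      have a := hd_flip i u v
      have b := hd_flip i u (σ v)
      rw [e1, e2] at a
      cases hu' : u i <;> cases hv' : v i <;> cases hs' : σ v i <;> simp_all <;> omega
    · intro a _ b _ hab
      have : flip i (flip i a) = flip i (flip i b) := by rw [hab]
      simpa [flip] using this
  have hsum := Finset.card_filter_add_card_filter_not (s := (univ : Finset (Cube n)))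
    (fun u => σ u = u)
  have hc : (univ : Finset (Cube n)).card = 2 ^ n := by simp
  rw [hc] at hsum
  have hne : (univ.filter fun u => ¬ σ u = u).card = (univ.filter fun u => σ u ≠ u).card := rfl
  omega

theorem exists_indep {α : Type*} [Fintype α] [DecidableEq α] (σ : Equiv.Perm α) :
    ∃ A : Finset α, Disjoint A (A.image σ) ∧ (univ.filter fun u => σ u ≠ u).card ≤ 3 * A.card := by
  obtain ⟨A, hA, hmax⟩ := Finset.exists_max_image
    (univ.filter fun A : Finset α => Disjoint A (A.image σ)) Finset.card ⟨∅, by simp⟩
  simp only [mem_filter, mem_univ, true_and] at hA hmax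
  refine ⟨A, hA, ?_⟩
  have hsub : (univ.filter fun u => σ u ≠ u) ⊆ A ∪ A.image σ ∪ A.image σ.symm := by
    intro u hu
    simp only [mem_filter, mem_univ, true_and] at hu
    by_contra hcon
    simp only [mem_union, not_or] at hcon
    obtain ⟨⟨ha, hb⟩, hc⟩ := hcon
    have hd : Disjoint (insert u A) ((insert u A).image σ) := by
      rw [Finset.image_insert, Finset.disjoint_insert_left, Finset.disjoint_insert_right]
      refine ⟨?_, ?_, hA⟩
      · rw [Finset.mem_insert, not_or]
        exact ⟨fun h => hu h.symm, hb⟩
      · intro h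
        apply hc
        rw [Finset.mem_image]
        exact ⟨σ u, h, by simp⟩
    have := hmax _ hd
    rw [Finset.card_insert_of_notMem ha] at this
    omega
  calc (univ.filter fun u => σ u ≠ u).card ≤ (A ∪ A.image σ ∪ A.image σ.symm).card :=
        Finset.card_le_card hsub
    _ ≤ (A ∪ A.image σ).card + (A.image σ.symm).card := Finset.card_union_le _ _
    _ ≤ A.card + (A.image σ).card + (A.image σ.symm).card := by
        have := Finset.card_union_le A (A.image σ)
        omega
    _ ≤ 3 * A.card := by
        have h1 : (A.image σ).card ≤ A.card := Finset.card_image_le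
        have h2 : (A.image σ.symm).card ≤ A.card := Finset.card_image_le
        omega

end Pool.Agent.HQM
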