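import Pool.Agent.HQM.Iso

set_option autoImplicit false

namespace Pool.Agent.HQM

open Finset

/-- rotation of `[0,h)` by `d` and of `[h,q)` by `d`, `h = q/2` -/
def rot (q d a : ℕ) : ℕ :=
  if a < q / 2 then (a + d) % (q / 2) else q / 2 + (a - q / 2 + d) % (q - q / 2)

theorem rot_lt {q d a : ℕ} (hq : 2 ≤ q) : rot q d a < q := by
  unfold rot
  split_ifs with h
  · have := Nat.mod_lt (a + d) (show 0 < q / 2 by omega)
    omega
  · have := Nat.mod_lt (a - q / 2 + d) (show 0 < q - q / 2 by omega)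
    omega

theorem rot_side {q d a : ℕ} (hq : 2 ≤ q) : rot q d a < q / 2 ↔ a < q / 2 := by
  unfold rot
  split_ifs with h
  · have := Nat.mod_lt (a + d) (show 0 < q / 2 by omega)
    simp [h, this]
  · simp [h]

theorem mod_add_inj {m a b d : ℕ} (ha : a < m) (hb : b < m) (h : (a + d) % m = (b + d) % m) :
    a = b := by
  have h1 : a + d ≡ b + d [MOD m] := h
  have h2 : a ≡ b [MOD m] := Nat.ModEq.add_right_cancel' d h1
  exact Nat.ModEq.eq_of_lt_of_lt h2 ha hb

theorem rot_inj {q d a b : ℕ} (hq : 2 ≤ q) (ha : a < q) (hb : b < q)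
    (h : rot q d a = rot q d b) : a = b := by
  have hs : a < q / 2 ↔ b < q / 2 := by
    rw [← rot_side (d := d) hq, h, rot_side hq]
  unfold rot at h
  by_cases h1 : a < q / 2
  · have h2 := hs.mp h1
    rw [if_pos h1, if_pos h2] at h
    exact mod_add_inj h1 h2 h
  · have h2 : ¬ b < q / 2 := fun hh => h1 (hs.mpr hh)
    rw [if_neg h1, if_neg h2] at h
    have h3 := mod_add_inj (m := q - q / 2) (a := a - q / 2) (b := b - q / 2) (d := d)
      (by omega) (by omega) (by omega)
    omega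

theorem rot_dinj {q d e a : ℕ} (hd : d < q / 2) (he : e < q / 2)
    (h : rot q d a = rot q e a) : d = e := by
  unfold rot at h
  by_cases h1 : a < q / 2
  · rw [if_pos h1, if_pos h1, add_comm a d, add_comm a e] at h
    exact mod_add_inj hd he h
  · rw [if_neg h1, if_neg h1, add_comm _ d, add_comm _ e] at h
    exact mod_add_inj (m := q - q / 2) (by omega) (by omega) (Nat.add_left_cancel h)

/-- the merging maps of colours -/
def mg (q : ℕ) : ℕ → ℕ → ℕ
  | 0, x => x % q
  | s + 1, x => rot q ((x / q / (q / 2) ^ s) % (q / 2)) (x % q)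

theorem mg_succ (q s x : ℕ) :
    mg q (s + 1) x = rot q ((x / q / (q / 2) ^ s) % (q / 2)) (x % q) := rfl

theorem mg_lt {q s x : ℕ} (hq : 2 ≤ q) : mg q s x < q := by
  cases s with
  | zero => exact Nat.mod_lt _ (by omega)
  | succ s => exact rot_lt hq

theorem mg_side {q s x : ℕ} (hq : 2 ≤ q) : mg q s x < q / 2 ↔ mg q 0 x < q / 2 := by
  cases s with
  | zero => rfl
  | succ s => exact rot_side hq

theorem mg_inj {q s x y : ℕ} (hq : 2 ≤ q) (h : mg q s x = mg q s y) (h2 : x / q = y / q) :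
    x = y := by
  have h3 : x % q = y % q := by
    cases s with
    | zero => exact h
    | succ s =>
        rw [mg_succ, mg_succ, h2] at h
        exact rot_inj hq (Nat.mod_lt _ (by omega)) (Nat.mod_lt _ (by omega)) h
  rw [← Nat.div_add_mod x q, ← Nat.div_add_mod y q, h2, h3]

theorem digits_inj {h : ℕ} : ∀ T b c : ℕ, b < h ^ T → c < h ^ T →
    (∀ s < T, b / h ^ s % h = c / h ^ s % h) → b = c := by
  intro T
  induction T with
  | zero =>
      intro b c hb hc _
      simp at hb hc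
      omega
  | succ T ih =>
      intro b c hb hc hs
      have h0 := hs 0 (by omega)
      simp at h0
      have h1 : b / h = c / h := by
        apply ih
        · rw [pow_succ] at hb
          exact Nat.div_lt_of_lt_mul (by rw [mul_comm]; exact hb)
        · rw [pow_succ] at hc
          exact Nat.div_lt_of_lt_mul (by rw [mul_comm]; exact hc)
        · intro s hsT
          have := hs (s + 1) (by omega)
          rw [Nat.div_div_eq_div_mul, Nat.div_div_eq_div_mul, ← pow_succ']
          exact this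
      rw [← Nat.div_add_mod b h, ← Nat.div_add_mod c h, h1, h0]

theorem joint_inj {q k T x y : ℕ} (hq : 4 ≤ q) (hk : k ≤ (q / 2) ^ T) (hx : x < k * q)
    (hy : y < k * q) (h : ∀ s ≤ T, mg q s x = mg q s y) : x = y := by
  have h0 : x % q = y % q := h 0 (Nat.zero_le _)
  have hb : x / q < (q / 2) ^ T := by
    have : x / q < k := Nat.div_lt_of_lt_mul (by rw [mul_comm]; exact hx)
    omega
  have hc : y / q < (q / 2) ^ T := by
    have : y / q < k := Nat.div_lt_of_lt_mul (by rw [mul_comm]; exact hy)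
    omega
  have h1 : x / q = y / q := by
    apply digits_inj T _ _ hb hc
    intro s hs
    have := h (s + 1) (by omega)
    rw [mg_succ, mg_succ, h0] at this
    exact rot_dinj (Nat.mod_lt _ (by omega)) (Nat.mod_lt _ (by omega)) this
  rw [← Nat.div_add_mod x q, ← Nat.div_add_mod y q, h1, h0]

theorem div_lt_fin {q k : ℕ} (x : Fin (k * q)) : (x : ℕ) / q < k :=
  Nat.div_lt_of_lt_mul (lt_of_lt_of_eq x.2 (mul_comm k q))

/-- the fine colours as pairs -/
theorem split_bij {q k : ℕ} (hq : 2 ≤ q) (s : ℕ) :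
    Function.Bijective (fun x : Fin (k * q) =>
      ((⟨mg q s x, mg_lt hq⟩ : Fin q),
        (⟨x / q, div_lt_fin x⟩ : Fin k))) := by
  rw [Fintype.bijective_iff_injective_and_card]
  constructor
  · intro x y hxy
    simp only [Prod.mk.injEq, Fin.mk.injEq] at hxy
    exact Fin.ext (mg_inj hq hxy.1 hxy.2)
  · simp [mul_comm]

theorem self_mem_ball {n : ℕ} (r : ℕ) (v : Cube n) : v ∈ ball r v :=
  ⟨SimpleGraph.Walk.nil, by simp⟩

theorem values {n r : ℕ} {χ μ : Cube n → ℕ} (h : LocallyEquivalent r χ μ) (v : Cube n) :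
    ∃ w, μ v = χ w := by
  obtain ⟨f, hf⟩ := h
  obtain ⟨φ, hφ⟩ := hf (f.symm v)
  have hv : v ∈ ball r (f (f.symm v)) := by
    rw [Equiv.apply_symm_apply]
    exact self_mem_ball r v
  refine ⟨(φ.symm ⟨v, hv⟩ : _), ?_⟩
  have := hφ (φ.symm ⟨v, hv⟩)
  rw [← this]
  simp

theorem merge_locally {n r : ℕ} {χ μ : Cube n → ℕ} (m : ℕ → ℕ) (h : LocallyEquivalent r χ μ) :
    LocallyEquivalent r (fun v => m (χ v)) (fun v => m (μ v)) := by
  obtain ⟨f, hf⟩ := h
  refine ⟨f, fun v => ?_⟩
  obtain ⟨φ, hφ⟩ := hf v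
  exact ⟨φ, fun x => congrArg m (hφ x)⟩

theorem iso_mem_auts {n : ℕ} (g : Q n ≃g Q n) : g.toEquiv ∈ auts n := by
  rw [mem_auts]
  intro u v
  exact g.map_rel_iff

/-- the 2-colouring by halves has a non-trivial symmetry -/
def SymHalf {n : ℕ} (q : ℕ) (χ : Cube n → ℕ) : Prop :=
  ∃ σ ∈ auts n, σ ≠ 1 ∧ ∀ v, (χ (σ v) < q / 2 ↔ χ v < q / 2)

theorem dist_of_merges {n r q k T : ℕ} (hq : 4 ≤ q) (hk : k ≤ (q / 2) ^ T) {χ : Cube n → ℕ}
    (hχ : ∀ v, χ v < k * q) (h : ∀ s ≤ T, Distinguishable r (fun v => mg q s (χ v)))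
    (hs : ¬ SymHalf q (fun v => mg q 0 (χ v))) : Distinguishable r χ := by
  intro μ hμ
  have hval : ∀ v, μ v < k * q := by
    intro v
    obtain ⟨w, hw⟩ := values hμ v
    rw [hw]
    exact hχ w
  have hg : ∀ s ≤ T, ∃ g : Q n ≃g Q n, ∀ v, mg q s (μ v) = mg q s (χ (g v)) := by
    intro s hsT
    obtain ⟨g, hg⟩ := h s hsT _ (merge_locally (mg q s) hμ)
    exact ⟨g, hg⟩
  obtain ⟨g0, hg0⟩ := hg 0 (Nat.zero_le _)
  have key : ∀ s ≤ T, ∀ v, mg q s (μ v) = mg q s (χ (g0 v)) := by
    intro s hsT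
    obtain ⟨g, hgs⟩ := hg s hsT
    have hside : ∀ v, (mg q 0 (χ (g v)) < q / 2 ↔ mg q 0 (χ (g0 v)) < q / 2) := by
      intro v
      rw [← hg0 v, ← mg_side (s := s) (x := χ (g v)) (by omega), ← hgs v,
        mg_side (by omega)]
    have hEq : (g0.symm.trans g).toEquiv = (1 : Equiv.Perm (Cube n)) := by
      by_contra hne
      apply hs
      refine ⟨(g0.symm.trans g).toEquiv, iso_mem_auts _, hne, ?_⟩
      intro v
      have := hside (g0.symm v)
      simpa using this
    intro v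
    have h3 : g v = g0 v := by
      have := Equiv.congr_fun hEq (g0 v)
      simpa using this
    rw [hgs v, h3]
  refine ⟨g0, fun v => ?_⟩
  exact joint_inj hq hk (hval v) (hχ _) (fun s hsT => key s hsT v)

end Pool.Agent.HQM
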